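import Mathlib
import Pool.Agent.Q47.TV.EtBdd

/-!
# Divisors of bounded log discrepancy computing minimal log discrepancies of quotients of toroidal pairs

`x` is a closed point of a complex affine variety `X`, `B` an effective `ℝ`-divisor, `K_X` and `K_X + B`
are `ℝ`-Cartier at `x`, and `G` is a finite group of automorphisms of the germ which preserve the
log discrepancies `a(E, X, B)` and `a(E, X, 0)`. Every `σ` in `G` has an étale toric chart (`EtGerm2`):
morphisms `X ← U → X_σ`, étale at a closed point `u`, `u ↦ x` and `u ↦ y`, where `X_σ` is an affine toric
variety of dimension `n` (any strictly convex rational cone of any dimension at most `n`) with a torus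
invariant boundary with coefficients at most `1`, and `y` is any closed point of it, under which the
pairs with boundary and the pairs without boundary correspond, and an automorphism `ρ` of `U` which fixes
`u` and lies over `σ` and over a monomial automorphism of `X_σ`. The morphisms enter through the following
property of étale morphisms (`IsEtale`): restriction of valuations is a bijection of the divisors over
`u` and the divisors over its image, with the same residue fields. Different elements of `G` may need
different charts.

Remarks (not part of the formal statement). For `X` smooth and `B = 0` every `σ` has a chart: a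
`σ`-invariant neighbourhood of `x` has an equivariant étale morphism to the tangent space. Thus all
quotient singularities are included, as are toroidal pairs and their quotients by groups whose elements
are étale locally monomial, in particular all closed points of the quotients of projective toric pairs
`(X, B)` by finite groups of automorphisms: by Steinberg's theorem every element of finite order of
the linear algebraic group `Aut (X, B)` normalizes a maximal torus.

For the quotient `Y = X / G` with `K_X + B = π^* (K_Y + B_Y)`, `X → Y` étale in codimension one, and a
prime divisor `F` over `Y`, the image of `E` over `X`, `a(F, Y, B_Y) = a(E, X, B) / r_E` and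
`a(F, Y, 0) = a(E, X, 0) / r_E`, `r_E` the order of the inertia group of `E`. The theorem says that there is
`E` which computes the minimal log discrepancy `m` of `(Y, B_Y)` at the image of `x` such that
`a(F, Y, 0) ≤ l`, where `l` depends only on `n`.

Idea of the proof: `m = κ + c + φ (u)` as in `MP_df5e61_ag.ToroidalQuotients`, where
`u = ∑ w_i A_i` is a combination with positive coefficients of linearly independent orbit sums of edges.
Replacing `w_i` by `w_i - ⌈w_i⌉ + 1` does not change the compatibility of `u` with the residues, keeps `u`
in the interior of the face and does not increase `φ (u)`, because the coefficients of `B` are at most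
`1`. The divisor constructed from the new `u` computes `m`, and its log discrepancy with respect to
`K_X` is at most `κ + c + φ_0 (u)`, with `φ_0 = 1` at the edges.
-/

set_option autoImplicit false

namespace Pool.Agent.Results.MP_43381c_ag.ToroidalQuotients

open Pool.Agent.TH165.ACC Pool.Agent.W497.Mld Pool.Agent.H436R3.KT Pool.Agent.H436R3.Fol Q47.QM Q47.TV

/-- For every `n` there is a real number `l` such that for every quotient germ as above with étale toric
charts of dimension `n` and with minimal log discrepancy `m ≥ 0` there is a prime divisor `v` over the
closed point `x` of `X`, with log discrepancies `b` with respect to `K_X + B` and `b0` with respect to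
`K_X` and an inertia group of order `r`, such that `m = b / r` and `b0 / r ≤ l`. -/
theorem result (n : ℕ) : ∃ l : ℝ, ∀ (L : Type) [Field L] [Algebra ℂ L] (X : AffVar L)
    (B : EffDiv X) (x : Pt X) (e : LocEq B x) (e0 : LocEq (zeroDiv X) x)
    (G : Subgroup (L ≃ₐ[ℂ] L)) (m : ℝ), Finite G → 0 ≤ m →
    (∀ σ ∈ G, IsGermAut e σ) → (∀ σ ∈ G, IsGermAut e0 σ) →
    (∀ σ ∈ G, Nonempty (EtGerm2 n (FractionRing (MvPolynomial (Fin n) ℂ)) e e0 σ)) →
    IsQuotMldX e G m →
    ∃ (v : DVal L) (b b0 : ℝ), IsOverGerm x v ∧ IsLogDisc e v b ∧ IsLogDisc e0 v b0 ∧
      m = b / Nat.card {σ : G // ∀ f, v.Reg f → v.Pos (σ.1 f - f)} ∧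
      b0 / Nat.card {σ : G // ∀ f, v.Reg f → v.Pos (σ.1 f - f)} ≤ l :=
  exists_bdd_et n

end Pool.Agent.Results.MP_43381c_ag.ToroidalQuotients
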